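import Pool.Agent.Q120.DP.Lower

/-!
# Randomly displaced primes: almost sure statements
-/

set_option autoImplicit false

namespace Pool.Agent.Q120.DP

open MeasureTheory ProbabilityTheory Finset Filter Pool.Agent.Q152.ShiftsPrimes

/-- Every interval `(x, x + C (log x) ^ 2]`, `x` large, meets `S`. -/
def GapsBounded (S : Set ℕ) : Prop :=
  ∃ C : ℝ, ∀ᶠ x : ℕ in atTop, ∃ m ∈ S, x < m ∧ (m : ℝ) ≤ x + C * Real.log x ^ 2

/-- `(0, X]` contains, for every large `X`, an interval `(x, x + c (log X) ^ 2]` free of `S`. -/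
def LargeGaps (c : ℝ) (S : Set ℕ) : Prop :=
  ∀ᶠ X : ℕ in atTop, ∃ x : ℕ, (x : ℝ) + c * Real.log X ^ 2 ≤ X ∧
    ∀ m ∈ S, ¬ (x < m ∧ (m : ℝ) ≤ x + c * Real.log X ^ 2)

variable {Ω : Type*} [MeasurableSpace Ω] {μ : Measure Ω} [IsProbabilityMeasure μ] {K : ℕ → ℕ}
  {ξ : ℕ → Ω → ℕ}

theorem tsum_ne_top_of_real {f : ℕ → Set Ω} {g : ℕ → ℝ} (hg : Summable g)
    (h : ∀ᶠ n in atTop, μ.real (f n) ≤ g n) : ∑' n, μ (f n) ≠ ⊤ := by
  obtain ⟨n0, hn0⟩ := eventually_atTop.1 h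
  have h1 : Summable (fun n => μ.real (f n)) := by
    rw [← summable_nat_add_iff n0]
    refine Summable.of_nonneg_of_le (fun n => measureReal_nonneg) (fun n => hn0 (n + n0) (by omega))
      ((summable_nat_add_iff n0).2 hg)
  have h2 : ∀ n, μ (f n) = ENNReal.ofReal (μ.real (f n)) := fun n => by
    rw [Measure.real, ENNReal.ofReal_toReal (measure_ne_top μ _)]
  simp_rw [h2]
  exact h1.tsum_ofReal_ne_top

theorem gapsBounded_of' (hD : Displacement μ K ξ) (hR : Regular K) {c : ℝ} (hc : 0 < c)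
    (hS : ∀ᶠ x : ℕ in atTop, c * K x / Real.log x ≤ cnt x (K x)) :
    ∃ C : ℝ, ∀ᵐ ω ∂μ, ∀ᶠ x : ℕ in atTop, ∃ m ∈ displaced ξ ω,
      x < m ∧ (m : ℝ) ≤ x + C * Real.log x ^ 2 := by
  obtain ⟨lam, hlam, h1⟩ := upper_prob hD hR hc hS
  have h2 : ∑' n, μ (Free ξ (Ioc n (n + ⌈lam * Real.log n ^ 2⌉₊))) ≠ ⊤ :=
    tsum_ne_top_of_real (g := fun n => 1 / (n : ℝ) ^ 2)
      (Real.summable_one_div_nat_pow.2 (by norm_num)) h1
  refine ⟨lam + 1, ?_⟩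
  filter_upwards [ae_eventually_notMem h2] with ω hω
  filter_upwards [hω, ev_one_le_log] with x hx hx1
  simp only [Free, Set.mem_ofPred_eq, not_forall, not_not] at hx
  obtain ⟨p, hp, hpm⟩ := hx
  rw [mem_Ioc] at hpm
  refine ⟨p + ξ p ω, ⟨p, hp, rfl⟩, hpm.1, ?_⟩
  have h3 : ((p + ξ p ω : ℕ) : ℝ) ≤ ((x + ⌈lam * Real.log x ^ 2⌉₊ : ℕ) : ℝ) := by exact_mod_cast hpm.2
  have h4 := (Nat.ceil_lt_add_one (show 0 ≤ lam * Real.log (x : ℝ) ^ 2 by positivity)).le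
  have h5 : 1 ≤ Real.log (x : ℝ) ^ 2 := one_le_pow₀ hx1
  push_cast at h3 ⊢
  linarith

theorem gapsBounded_of (hD : Displacement μ K ξ) (hR : Regular K) {c : ℝ} (hc : 0 < c)
    (hS : ∀ᶠ x : ℕ in atTop, c * K x / Real.log x ≤ cnt x (K x)) :
    ∀ᵐ ω ∂μ, GapsBounded (displaced ξ ω) := by
  obtain ⟨C, hC⟩ := gapsBounded_of' hD hR hc hS
  filter_upwards [hC] with ω hω
  exact ⟨C, hω⟩

theorem not_free_of {h u N : ℕ} {ω : Ω} (hω : ¬ ∀ i ∈ range N, ω ∉ Free ξ (Ioc (u + i * h) (u + i * h + h))) :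
    ∃ x : ℕ, u ≤ x ∧ x + h ≤ u + N * h ∧ ∀ m ∈ displaced ξ ω, ¬ (x < m ∧ m ≤ x + h) := by
  push Not at hω
  obtain ⟨i, hi, hω⟩ := hω
  have h1 : (i + 1) * h ≤ N * h := Nat.mul_le_mul_right h (mem_range.1 hi)
  refine ⟨u + i * h, by omega, by nlinarith, ?_⟩
  rintro m ⟨p, hp, rfl⟩ hm
  exact hω p hp (mem_Ioc.2 hm)

theorem largeGaps (hD : Displacement μ K ξ) (hR : Regular K) :
    ∃ c : ℝ, 0 < c ∧ ∀ᵐ ω ∂μ, LargeGaps c (displaced ξ ω) := by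
  obtain ⟨c, hc, η, hη, h1⟩ := lower_prob hD hR
  refine ⟨c / 4, by positivity, ?_⟩
  have h2 : ∀ᶠ k : ℕ in atTop, ∃ u N : ℕ, 0 < N ∧
      u + N * ⌈c * Real.log ((2 ^ k : ℕ) : ℝ) ^ 2⌉₊ ≤ 2 ^ k ∧
      μ.real {ω | ∀ i ∈ range N, ω ∉ Free ξ (Ioc (u + i * ⌈c * Real.log ((2 ^ k : ℕ) : ℝ) ^ 2⌉₊)
        (u + i * ⌈c * Real.log ((2 ^ k : ℕ) : ℝ) ^ 2⌉₊ + ⌈c * Real.log ((2 ^ k : ℕ) : ℝ) ^ 2⌉₊))} ≤
        ((2 ^ k : ℕ) : ℝ) ^ (-η) :=
    (tendsto_pow_atTop_atTop_of_one_lt (r := (2 : ℕ)) (by norm_num)).eventually h1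
  obtain ⟨k0, hk0⟩ := eventually_atTop.1 h2
  choose! u N hN1 hN2 hN3 using hk0
  have h3 : ∑' k, μ {ω | ∀ i ∈ range (N k), ω ∉ Free ξ
      (Ioc (u k + i * ⌈c * Real.log ((2 ^ k : ℕ) : ℝ) ^ 2⌉₊)
        (u k + i * ⌈c * Real.log ((2 ^ k : ℕ) : ℝ) ^ 2⌉₊ + ⌈c * Real.log ((2 ^ k : ℕ) : ℝ) ^ 2⌉₊))} ≠ ⊤ := by
    apply tsum_ne_top_of_real (g := fun k => ((2 : ℝ) ^ (-η)) ^ k)
    · apply summable_geometric_of_lt_one (by positivity)
      exact Real.rpow_lt_one_of_one_lt_of_neg (by norm_num) (by linarith)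
    · filter_upwards [eventually_ge_atTop k0] with k hk
      refine (hN3 k hk).trans (le_of_eq ?_)
      push_cast
      rw [← Real.rpow_natCast, ← Real.rpow_natCast, ← Real.rpow_mul (by norm_num),
        ← Real.rpow_mul (by norm_num)]
      congr 1
      ring
  filter_upwards [ae_eventually_notMem h3] with ω hω
  have h4 : ∀ᶠ k : ℕ in atTop, ∃ x : ℕ, x + ⌈c * Real.log ((2 ^ k : ℕ) : ℝ) ^ 2⌉₊ ≤ 2 ^ k ∧
      ∀ m ∈ displaced ξ ω, ¬ (x < m ∧ m ≤ x + ⌈c * Real.log ((2 ^ k : ℕ) : ℝ) ^ 2⌉₊) := by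
    filter_upwards [hω, eventually_ge_atTop k0] with k hk hkk
    obtain ⟨x, _, hx2, hx3⟩ := not_free_of hk
    exact ⟨x, hx2.trans (hN2 k hkk), hx3⟩
  have hlogt : Tendsto (Nat.log 2) atTop atTop := by
    rw [tendsto_atTop]
    intro b
    filter_upwards [eventually_ge_atTop (2 ^ b)] with n hn
    exact Nat.le_log_of_pow_le (by norm_num) hn
  filter_upwards [hlogt.eventually h4, hlogt.eventually_ge_atTop 1, eventually_ge_atTop 4]
    with X hX hX1 hX2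
  obtain ⟨x, hx1, hx2⟩ := hX
  obtain ⟨k, hk⟩ : ∃ k : ℕ, k = Nat.log 2 X := ⟨_, rfl⟩
  rw [← hk] at hx1 hx2 hX1
  have hkX : 2 ^ k ≤ X := by rw [hk]; exact Nat.pow_log_le_self 2 (by omega)
  have hkX2 : X < 2 ^ (k + 1) := by rw [hk]; exact Nat.lt_pow_succ_log_self (by norm_num) X
  have hX0 : (0 : ℝ) < X := by
    have : 0 < X := by omega
    exact_mod_cast this
  have hlog1 : Real.log X ≤ 2 * Real.log ((2 ^ k : ℕ) : ℝ) := by
    have h5 : (X : ℝ) ≤ ((2 ^ k : ℕ) : ℝ) ^ 2 := by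
      have h6 : X ≤ (2 ^ k) ^ 2 := by
        rw [← pow_mul]
        exact hkX2.le.trans (Nat.pow_le_pow_right (by norm_num) (by omega))
      exact_mod_cast h6
    have := Real.log_le_log hX0 h5
    rwa [Real.log_pow, Nat.cast_ofNat] at this
  have hlog0 : 0 ≤ Real.log (X : ℝ) := Real.log_natCast_nonneg _
  have hlog2 : c / 4 * Real.log X ^ 2 ≤ ⌈c * Real.log ((2 ^ k : ℕ) : ℝ) ^ 2⌉₊ := by
    refine le_trans ?_ (Nat.le_ceil _)
    calc c / 4 * Real.log X ^ 2 ≤ c / 4 * (2 * Real.log ((2 ^ k : ℕ) : ℝ)) ^ 2 := by gcongr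
      _ = _ := by ring
  refine ⟨x, ?_, ?_⟩
  · have h5 : ((x + ⌈c * Real.log ((2 ^ k : ℕ) : ℝ) ^ 2⌉₊ : ℕ) : ℝ) ≤ ((X : ℕ) : ℝ) := by
      exact_mod_cast hx1.trans hkX
    push_cast at h5
    push_cast at hlog2
    linarith
  · intro m hm hcon
    apply hx2 m hm
    refine ⟨hcon.1, ?_⟩
    have h5 : (m : ℝ) ≤ ((x + ⌈c * Real.log ((2 ^ k : ℕ) : ℝ) ^ 2⌉₊ : ℕ) : ℝ) := by
      push_cast at hlog2 ⊢
      linarith [hcon.2]
    exact_mod_cast h5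

/-- The primes have the expected order in all intervals of length `K`. -/
def ShortIntervals (K : ℕ → ℕ) : Prop :=
  ∃ c : ℝ, 0 < c ∧ ∀ᶠ x : ℕ in atTop,
    c * K x / Real.log x ≤ (((Ioc x (x + K x)).filter Nat.Prime).card : ℝ)

theorem longer_gaps (hD : Displacement μ K ξ) (hR : Regular K) (hnot : ¬ ShortIntervals K) :
    ∀ᵐ ω ∂μ, ∀ C : ℝ, ∃ᶠ x : ℕ in atTop, ∀ m ∈ displaced ξ ω,
      ¬ (x < m ∧ (m : ℝ) ≤ x + C * Real.log x ^ 2) := by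
  have hnot' : ∀ c : ℝ, 0 < c → ∃ᶠ x : ℕ in atTop, (cnt x (K x) : ℝ) < c * K x / Real.log x := by
    intro c hc
    rw [ShortIntervals, not_exists] at hnot
    have h1 := hnot c
    rw [not_and] at h1
    have h2 := h1 hc
    rw [not_eventually] at h2
    refine h2.mono (fun x hx => ?_)
    rw [not_le] at hx
    exact hx
  have key : ∀ n : ℕ, ∀ᵐ ω ∂μ, ∃ᶠ x : ℕ in atTop, ∀ m ∈ displaced ξ ω,
      ¬ (x < m ∧ (m : ℝ) ≤ x + ((n : ℝ) + 1) * Real.log x ^ 2) := by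
    intro n
    obtain ⟨η, hη, h1⟩ := lower_prob' hD hR hnot' (lam := (n : ℝ) + 1) (by positivity)
    have h2 : ∀ j : ℕ, ∃ y : ℕ, j ≤ y ∧ 1 ≤ y ∧ (y : ℝ) ^ (-η) ≤ (1 / 2 : ℝ) ^ j ∧
        ∃ u N h : ℕ, y ≤ u ∧ 0 < N ∧ ((n : ℝ) + 1) * Real.log ((u + N * h : ℕ) : ℝ) ^ 2 ≤ h ∧
      μ.real {ω | ∀ i ∈ range N, ω ∉ Free ξ (Ioc (u + i * h) (u + i * h + h))} ≤ (y : ℝ) ^ (-η) := by
      intro j
      have h3 : ∀ᶠ y : ℕ in atTop, (y : ℝ) ^ (-η) ≤ (1 / 2 : ℝ) ^ j := by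
        have h4 : Tendsto (fun y : ℕ => (y : ℝ) ^ (-η)) atTop (nhds 0) :=
          (tendsto_rpow_neg_atTop hη).comp tendsto_natCast_atTop_atTop
        exact h4.eventually_le_const (by positivity)
      obtain ⟨y, hy1, hy2⟩ := (h1.and_eventually
        ((eventually_ge_atTop j).and ((eventually_ge_atTop 1).and h3))).exists
      exact ⟨y, hy2.1, hy2.2.1, hy2.2.2, hy1⟩
    choose y hy1 hy2 hy3 u N h hu hN hh hμ using h2
    have h3 : ∑' j, μ {ω | ∀ i ∈ range (N j), ω ∉ Free ξ (Ioc (u j + i * h j) (u j + i * h j + h j))} ≠ ⊤ :=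
      tsum_ne_top_of_real (g := fun j => (1 / 2 : ℝ) ^ j)
        (summable_geometric_of_lt_one (by norm_num) (by norm_num))
        (Eventually.of_forall (fun j => (hμ j).trans (hy3 j)))
    filter_upwards [ae_eventually_notMem h3] with ω hω
    rw [frequently_atTop]
    intro a
    obtain ⟨j, hj1, hj2⟩ := (hω.and (eventually_ge_atTop (a + 1))).exists
    obtain ⟨x, hx1, hx2, hx3⟩ := not_free_of hj1
    have hxa : a + 1 ≤ x := by
      have := hy1 j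
      have := hu j
      omega
    refine ⟨x, by omega, ?_⟩
    intro m hm hcon
    apply hx3 m hm
    refine ⟨hcon.1, ?_⟩
    have h4 : Real.log (x : ℝ) ≤ Real.log ((u j + N j * h j : ℕ) : ℝ) := by
      apply Real.log_le_log
      · have : 0 < x := by omega
        exact_mod_cast this
      · have : x ≤ u j + N j * h j := by omega
        exact_mod_cast this
    have h5 : 0 ≤ Real.log (x : ℝ) := Real.log_natCast_nonneg _
    have h6 : ((n : ℝ) + 1) * Real.log x ^ 2 ≤ h j :=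
      le_trans (by gcongr) (hh j)
    have h7 : (m : ℝ) ≤ ((x + h j : ℕ) : ℝ) := by
      push_cast
      linarith [hcon.2]
    exact_mod_cast h7
  filter_upwards [ae_all_iff.2 key] with ω hω C
  refine (hω ⌈C⌉₊).mono ?_
  intro x hx m hm hcon
  apply hx m hm
  refine ⟨hcon.1, hcon.2.trans ?_⟩
  have h1 : C ≤ ⌈C⌉₊ := Nat.le_ceil C
  have h2 : 0 ≤ Real.log (x : ℝ) ^ 2 := by positivity
  nlinarith

theorem main_iff (hD : Displacement μ K ξ) (hR : Regular K) :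
    (∀ᵐ ω ∂μ, GapsBounded (displaced ξ ω)) ↔ ShortIntervals K := by
  constructor
  · intro h
    by_contra hnot
    have h1 := longer_gaps hD hR hnot
    obtain ⟨ω, ⟨C, hC⟩, hω⟩ := (h.and h1).exists
    obtain ⟨x, hx1, hx2⟩ := ((hω C).and_eventually hC).exists
    obtain ⟨m, hm, hm1⟩ := hx2
    exact hx1 m hm hm1
  · rintro ⟨c, hc, hS⟩
    exact gapsBounded_of hD hR hc hS

end Pool.Agent.Q120.DP
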