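import Pool.Agent.Q120.DP.Main

/-!
# Randomly displaced primes: free windows
-/

set_option autoImplicit false

namespace Pool.Agent.Q120.DP

open MeasureTheory ProbabilityTheory Finset Filter Pool.Agent.Q152.ShiftsPrimes

variable {Ω : Type*} [MeasurableSpace Ω] {μ : Measure Ω} [IsProbabilityMeasure μ] {K : ℕ → ℕ}
  {ξ : ℕ → Ω → ℕ}

/-- The bound of `real_no_window` in the form we use. -/
theorem no_window_bound {h k0 N : ℕ} {r Ky L A1 A2 ε Y : ℝ} (hL : 1 ≤ L)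
    (hY : Real.log Y = L) (hY0 : 0 < Y) (hA1 : 0 ≤ A1) (hA2 : 0 < A2) (hKy : 0 < Ky)
    (hr : r ≤ A1 * Ky / L) (hk0 : Ky / A2 ≤ k0) (hN : Y ^ (3 * ε / 4) ≤ N)
    (hh : 2 * (A1 * A2) * h ≤ ε / 4 * L ^ 2) :
    Real.exp (2 * h * r / k0) / N ≤ Y ^ (-(ε / 2)) := by
  have hL0 : 0 < L := by linarith
  have hk0' : 0 < (k0 : ℝ) := lt_of_lt_of_le (by positivity) hk0
  have h1 : 2 * h * r / k0 ≤ ε / 4 * L := by
    rw [div_le_iff₀ hk0']
    have h2 : 2 * (h : ℝ) * r ≤ 2 * h * (A1 * Ky / L) := by gcongr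
    have h3 : 2 * (h : ℝ) * (A1 * Ky / L) = (2 * (A1 * A2) * h) * (Ky / A2) / L := by field_simp
    have h4 : (2 * (A1 * A2) * h) * (Ky / A2) / L ≤ (ε / 4 * L ^ 2) * (Ky / A2) / L := by gcongr
    have h5 : (ε / 4 * L ^ 2) * (Ky / A2) / L = ε / 4 * L * (Ky / A2) := by field_simp
    have hε : 0 ≤ ε / 4 * L := by
      have h6 : 0 ≤ 2 * (A1 * A2) * (h : ℝ) := by positivity
      have h7 : 0 ≤ ε / 4 * L ^ 2 := h6.trans hh
      by_contra hcon
      push Not at hcon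
      have : ε / 4 * L * L < 0 := mul_neg_of_neg_of_pos hcon hL0
      nlinarith
    have h6 : ε / 4 * L * (Ky / A2) ≤ ε / 4 * L * k0 := mul_le_mul_of_nonneg_left hk0 hε
    linarith
  have hN0 : 0 < (N : ℝ) := lt_of_lt_of_le (Real.rpow_pos_of_pos hY0 _) hN
  have h2 : Real.exp (2 * h * r / k0) ≤ Y ^ (ε / 4) := by
    rw [Real.rpow_def_of_pos hY0, hY]
    apply Real.exp_le_exp.2
    linarith
  calc Real.exp (2 * h * r / k0) / N ≤ Y ^ (ε / 4) / Y ^ (3 * ε / 4) :=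
        div_le_div₀ (Real.rpow_nonneg hY0.le _) h2 (Real.rpow_pos_of_pos hY0 _) hN
    _ = Y ^ (-(ε / 2)) := by
      rw [← Real.rpow_sub hY0]
      congr 1
      ring

/-- Large gaps exist below every large `X`. -/
theorem lower_prob (hD : Displacement μ K ξ) (hR : Regular K) :
    ∃ c : ℝ, 0 < c ∧ ∃ η : ℝ, 0 < η ∧ ∀ᶠ X : ℕ in atTop, ∃ u N : ℕ, 0 < N ∧
      u + N * ⌈c * Real.log X ^ 2⌉₊ ≤ X ∧
      μ.real {ω | ∀ i ∈ range N, ω ∉ Free ξ (Ioc (u + i * ⌈c * Real.log X ^ 2⌉₊)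
        (u + i * ⌈c * Real.log X ^ 2⌉₊ + ⌈c * Real.log X ^ 2⌉₊))} ≤ (X : ℝ) ^ (-η) := by
  obtain ⟨C, hC⟩ := hR.doubling
  obtain ⟨ε, hε, hKε⟩ := hR.large
  obtain ⟨B, hB1, hB⟩ := cnt_le
  obtain ⟨n0, hn0⟩ := eventually_atTop.1 (hR.le.and (hC.and hKε))
  have hC1 : 1 ≤ C := by
    by_contra hcon
    have hC0 : C = 0 := by omega
    have h1 := (hn0 n0 le_rfl).2.1
    rw [hC0, zero_mul] at h1
    have := hR.pos (2 * n0)
    omega
  have hC1' : (1 : ℝ) ≤ C := by exact_mod_cast hC1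
  obtain ⟨A1, hA1⟩ : ∃ A1 : ℝ, A1 = 2 * B / ε := ⟨_, rfl⟩
  obtain ⟨A2, hA2⟩ : ∃ A2 : ℝ, A2 = 2 * C ^ 3 := ⟨_, rfl⟩
  have hA1p : 0 < A1 := by rw [hA1]; positivity
  have hA2p : 0 < A2 := by rw [hA2]; positivity
  obtain ⟨c, hc⟩ : ∃ c : ℝ, c = ε / (16 * (A1 * A2)) := ⟨_, rfl⟩
  have hcp : 0 < c := by rw [hc]; positivity
  refine ⟨c, hcp, ε / 2, by positivity, ?_⟩
  filter_upwards [ev_log (8 * (c + 1) * (C ^ 3 + 1)) (ε / 4) (by positivity), hKε, ev_one_le_log,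
    eventually_ge_atTop (4 * n0 + 4 * K n0 + 8), hR.le,
    (Real.tendsto_log_atTop.comp tendsto_natCast_atTop_atTop).eventually_ge_atTop (1 / c)]
    with X hx1 hx2 hx3 hx4 hx5 hx6
  obtain ⟨L, hL⟩ : ∃ L : ℝ, L = Real.log X := ⟨_, rfl⟩
  simp only [Function.comp] at hx6
  rw [← hL] at hx1 hx3 hx6 ⊢
  obtain ⟨h, hh⟩ : ∃ h : ℕ, h = ⌈c * L ^ 2⌉₊ := ⟨_, rfl⟩
  rw [← hh]
  have hX0 : (0 : ℝ) < X := by
    have : 0 < X := by omega
    exact_mod_cast this
  have hX1 : (1 : ℝ) ≤ X := by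
    have : 1 ≤ X := by omega
    exact_mod_cast this
  have hL0 : 0 < L := by linarith
  have hcL : 1 ≤ c * L ^ 2 := by
    have h1 : 1 ≤ c * L := by
      have := mul_le_mul_of_nonneg_left hx6 hcp.le
      rwa [mul_one_div_cancel hcp.ne'] at this
    nlinarith
  have hh1 : c * L ^ 2 ≤ h := by rw [hh]; exact Nat.le_ceil _
  have hh2 : (h : ℝ) ≤ 2 * c * L ^ 2 := by
    have := (Nat.ceil_lt_add_one (show 0 ≤ c * L ^ 2 by positivity)).le
    rw [hh]
    linarith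
  have hh3 : (h : ℝ) ≤ (c + 1) * L ^ 2 := by
    have := (Nat.ceil_lt_add_one (show 0 ≤ c * L ^ 2 by positivity)).le
    have h2 : 1 ≤ L ^ 2 := one_le_pow₀ hx3
    rw [hh]
    linarith
  have hhpos : 0 < h := by
    have : (0 : ℝ) < h := by linarith
    exact_mod_cast this
  have hhpos' : (0 : ℝ) < h := by exact_mod_cast hhpos
  have hL24 : L ^ 2 ≤ L ^ 4 := pow_le_pow_right₀ hx3 (by norm_num)
  have hL4 : 1 ≤ L ^ 4 := one_le_pow₀ hx3
  obtain ⟨q, hq⟩ : ∃ q : ℝ, q = (X : ℝ) ^ (3 * ε / 4) := ⟨_, rfl⟩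
  have hq1 : 1 ≤ q := by rw [hq]; exact Real.one_le_rpow hX1 (by positivity)
  have hKq : q * (8 * (c + 1) * (C ^ 3 + 1) * L ^ 4) ≤ K X := by
    calc q * (8 * (c + 1) * (C ^ 3 + 1) * L ^ 4) ≤ q * (X : ℝ) ^ (ε / 4) := by gcongr
      _ = (X : ℝ) ^ ε := by
        rw [hq, ← Real.rpow_add hX0]
        congr 1; ring
      _ ≤ K X := hx2
  have hK1 : 8 * (c + 1) * (C ^ 3 + 1) * L ^ 4 ≤ K X := by
    have : 1 * (8 * (c + 1) * (C ^ 3 + 1) * L ^ 4) ≤ q * (8 * (c + 1) * (C ^ 3 + 1) * L ^ 4) := by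
      gcongr
    linarith
  have hC3 : (1 : ℝ) ≤ (C : ℝ) ^ 3 := one_le_pow₀ hC1'
  have hK2 : 4 * (C : ℝ) ^ 3 * h ≤ K X := by
    calc 4 * (C : ℝ) ^ 3 * h ≤ 4 * (C : ℝ) ^ 3 * ((c + 1) * L ^ 2) := by gcongr
      _ ≤ 4 * (C : ℝ) ^ 3 * ((c + 1) * L ^ 4) := by gcongr
      _ ≤ 8 * (c + 1) * (C ^ 3 + 1) * L ^ 4 := by
        have h1 : 0 ≤ (c + 1) * (C : ℝ) ^ 3 * L ^ 4 := by positivity
        have h2 : 0 ≤ (c + 1) * L ^ 4 := by positivity
        linarith
      _ ≤ K X := hK1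
  have hK2n : 4 * C ^ 3 * h ≤ K X := by exact_mod_cast hK2
  have hC3n : 1 ≤ C ^ 3 := Nat.one_le_pow _ _ hC1
  obtain ⟨N, hN⟩ : ∃ N : ℕ, N = K X / (2 * h) := ⟨_, rfl⟩
  obtain ⟨k0, hk0⟩ : ∃ k0 : ℕ, k0 = K X / C ^ 3 := ⟨_, rfl⟩
  have hNh : 2 * (N * h) ≤ K X := by
    have := Nat.div_mul_le_self (K X) (2 * h)
    rw [← hN] at this
    linarith
  have hNreal : q ≤ N := by
    have h1 : (K X : ℝ) < (N + 1) * (2 * h) := by
      have := Nat.lt_div_mul_add (a := K X) (b := 2 * h) (by omega)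
      rw [← hN] at this
      have h2 : ((K X : ℕ) : ℝ) < ((N * (2 * h) + 2 * h : ℕ) : ℝ) := by exact_mod_cast this
      push_cast at h2
      linarith
    by_contra hcon
    push Not at hcon
    have h3 : ((N : ℝ) + 1) * (2 * h) ≤ (2 * q) * (2 * ((c + 1) * L ^ 2)) := by
      apply mul_le_mul _ _ (by positivity) (by positivity)
      · linarith
      · linarith
    have h4 : (2 * q) * (2 * ((c + 1) * L ^ 2)) ≤ q * (8 * (c + 1) * (C ^ 3 + 1) * L ^ 4) := by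
      have h5 : 4 * ((c + 1) * L ^ 2) ≤ 8 * (c + 1) * (C ^ 3 + 1) * L ^ 4 := by
        calc 4 * ((c + 1) * L ^ 2) ≤ 4 * ((c + 1) * L ^ 4) := by gcongr
          _ ≤ _ := by
            have h1 : 0 ≤ (c + 1) * (C : ℝ) ^ 3 * L ^ 4 := by positivity
            have h2 : 0 ≤ (c + 1) * L ^ 4 := by positivity
            linarith
      have := mul_le_mul_of_nonneg_left h5 (show 0 ≤ q by linarith)
      linarith
    linarith
  have hNpos : 0 < N := by
    have : (0 : ℝ) < N := by linarith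
    exact_mod_cast this
  have hk0real : (K X : ℝ) / A2 ≤ k0 := by
    have h1 : (K X : ℝ) < (k0 + 1) * C ^ 3 := by
      have := Nat.lt_div_mul_add (a := K X) (b := C ^ 3) (by omega)
      rw [← hk0] at this
      have h2 : ((K X : ℕ) : ℝ) < ((k0 * C ^ 3 + C ^ 3 : ℕ) : ℝ) := by exact_mod_cast this
      push_cast at h2
      linarith
    rw [hA2, div_le_iff₀ (by positivity)]
    have h2 : 2 * (C : ℝ) ^ 3 ≤ K X := by
      have h3 : (1 : ℝ) ≤ h := by exact_mod_cast hhpos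
      have h4 : 4 * (C : ℝ) ^ 3 * 1 ≤ 4 * (C : ℝ) ^ 3 * h := by gcongr
      linarith
    linarith
  have h2hk0 : 2 * h ≤ k0 := by
    rw [hk0, Nat.le_div_iff_mul_le (by omega)]
    nlinarith
  obtain ⟨u, hu⟩ : ∃ u : ℕ, u = X - N * h := ⟨_, rfl⟩
  have huX : u + N * h = X := by omega
  have hu2 : X ≤ 2 * u := by omega
  refine ⟨u, N, hNpos, huX.le, ?_⟩
  obtain ⟨R, hRdef⟩ : ∃ R : Finset ℕ, R = (Ioc (X - 2 * K X) (X - 2 * K X + 2 * K X)).filter Nat.Prime :=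
    ⟨_, rfl⟩
  have hRprop : ∀ p : ℕ, p.Prime → p ≤ u + N * h → u < p + K p → p ∈ R ∧ k0 ≤ K p := by
    intro p hp h1 h2
    have hKpX : K p ≤ K X := hR.mono (by omega)
    have hppos := hp.pos
    constructor
    · rw [hRdef, mem_filter, mem_Ioc]
      exact ⟨⟨by omega, by omega⟩, hp⟩
    · have hpn : n0 ≤ p := by
        by_contra hcon
        have h3 : K p ≤ K n0 := hR.mono (by omega)
        omega
      have h3 := (hn0 p hpn).1
      have h4 : K X ≤ K (2 * (2 * p)) := hR.mono (by omega)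
      have h5 := (hn0 (2 * p) (by omega)).2.1
      have h6 := (hn0 p hpn).2.1
      have h7 : K X ≤ C * (C * K p) := h4.trans (h5.trans (Nat.mul_le_mul_left _ h6))
      rw [hk0]
      apply Nat.div_le_of_le_mul
      calc K X ≤ C * (C * K p) := h7
        _ = C ^ 2 * 1 * K p := by ring
        _ ≤ C ^ 2 * C * K p := by gcongr
        _ = C ^ 3 * K p := by ring
  have hKX0 : (0 : ℝ) < K X := by exact_mod_cast hR.pos X
  have hRcard : (R.card : ℝ) ≤ A1 * K X / L := by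
    have h1 := hB (X - 2 * K X) (2 * K X) (by have := hR.pos X; omega)
    have h2 : (R.card : ℝ) = cnt (X - 2 * K X) (2 * K X) := by rw [hRdef]; rfl
    rw [h2]
    refine h1.trans ?_
    push_cast
    have h3 : ε * L ≤ Real.log (2 * K X) := by
      have h4 : Real.log ((X : ℝ) ^ ε) ≤ Real.log (2 * K X) :=
        Real.log_le_log (Real.rpow_pos_of_pos hX0 _) (by linarith)
      rwa [Real.log_rpow hX0, ← hL] at h4
    calc B * (2 * (K X : ℝ)) / Real.log (2 * K X) ≤ B * (2 * (K X : ℝ)) / (ε * L) :=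
          div_le_div_of_nonneg_left (by positivity) (by positivity) h3
      _ = A1 * K X / L := by rw [hA1]; field_simp
  refine (real_no_window hD h2hk0 hhpos hNpos R hRprop hRcard).trans ?_
  refine no_window_bound (Ky := K X) (L := L) (A1 := A1) (A2 := A2) hx3 hL.symm hX0 hA1p.le hA2p
    hKX0 le_rfl hk0real (by rw [← hq]; exact hNreal) ?_
  calc 2 * (A1 * A2) * h ≤ 2 * (A1 * A2) * (2 * c * L ^ 2) := by gcongr
    _ = ε / 4 * L ^ 2 := by rw [hc]; field_simp; ring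

/-- If the short intervals of length `K` do not contain enough primes, there are longer gaps. -/
theorem lower_prob' (hD : Displacement μ K ξ) (hR : Regular K)
    (hnot : ∀ c : ℝ, 0 < c → ∃ᶠ x : ℕ in atTop, (cnt x (K x) : ℝ) < c * K x / Real.log x)
    {lam : ℝ} (hlam : 0 < lam) :
    ∃ η : ℝ, 0 < η ∧ ∃ᶠ y : ℕ in atTop, ∃ u N h : ℕ, y ≤ u ∧ 0 < N ∧
      lam * Real.log ((u + N * h : ℕ) : ℝ) ^ 2 ≤ h ∧
      μ.real {ω | ∀ i ∈ range N, ω ∉ Free ξ (Ioc (u + i * h) (u + i * h + h))} ≤ (y : ℝ) ^ (-η) := by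
  obtain ⟨C, hC⟩ := hR.doubling
  obtain ⟨ε, hε, hKε⟩ := hR.large
  obtain ⟨B, hB1, hB⟩ := cnt_le
  obtain ⟨n0, hn0⟩ := eventually_atTop.1 (hR.le.and (hC.and hKε))
  have hC1 : 1 ≤ C := by
    by_contra hcon
    have hC0 : C = 0 := by omega
    have h1 := (hn0 n0 le_rfl).2.1
    rw [hC0, zero_mul] at h1
    have := hR.pos (2 * n0)
    omega
  have hC1' : (1 : ℝ) ≤ C := by exact_mod_cast hC1
  obtain ⟨D, hD'⟩ : ∃ D : ℝ, D = 2 * B / ε + 1 := ⟨_, rfl⟩
  have hDp : 1 ≤ D := by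
    rw [hD']
    have : 0 ≤ 2 * B / ε := by positivity
    linarith
  obtain ⟨c, hc⟩ : ∃ c : ℝ, c = min (1 / 2) (ε / (16 * C * D * (4 * lam + 1))) := ⟨_, rfl⟩
  have hcp : 0 < c := by rw [hc]; apply lt_min (by norm_num); positivity
  have hc2 : c ≤ 1 / 2 := by rw [hc]; exact min_le_left _ _
  have hc3 : c * (16 * C * D * (4 * lam + 1)) ≤ ε := by
    have : c ≤ ε / (16 * C * D * (4 * lam + 1)) := by rw [hc]; exact min_le_right _ _
    rwa [le_div_iff₀ (by positivity)] at this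
  refine ⟨ε / 2, by positivity, ?_⟩
  have hev := (ev_log ((2 * (4 * lam + 1) + 1 + 4 * C * (4 * lam + 1)) / c) (ε / 4) (by positivity)).and
    (hKε.and (ev_one_le_log.and ((eventually_ge_atTop (4 * n0 + 4 * K n0 + 8)).and hR.le)))
  refine ((hnot c hcp).and_eventually hev).mono ?_
  rintro y ⟨hcy, hx1, hx2, hx3, hx4, hx5⟩
  obtain ⟨L, hL⟩ : ∃ L : ℝ, L = Real.log y := ⟨_, rfl⟩
  rw [← hL] at hx1 hx3 hcy
  obtain ⟨h, hh⟩ : ∃ h : ℕ, h = ⌈4 * lam * L ^ 2⌉₊ := ⟨_, rfl⟩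
  have hX0 : (0 : ℝ) < y := by
    have : 0 < y := by omega
    exact_mod_cast this
  have hX1 : (1 : ℝ) ≤ y := by
    have : 1 ≤ y := by omega
    exact_mod_cast this
  have hL0 : 0 < L := by linarith
  have hh1 : 4 * lam * L ^ 2 ≤ h := by rw [hh]; exact Nat.le_ceil _
  have hh3 : (h : ℝ) ≤ (4 * lam + 1) * L ^ 2 := by
    have := (Nat.ceil_lt_add_one (show 0 ≤ 4 * lam * L ^ 2 by positivity)).le
    have h2 : 1 ≤ L ^ 2 := one_le_pow₀ hx3
    rw [hh]
    linarith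
  have hhpos : 0 < h := by
    have : (0 : ℝ) < h := lt_of_lt_of_le (by positivity) hh1
    exact_mod_cast this
  have hhpos' : (0 : ℝ) < h := by exact_mod_cast hhpos
  have hL24 : L ^ 2 ≤ L ^ 4 := pow_le_pow_right₀ hx3 (by norm_num)
  have hL4 : 1 ≤ L ^ 4 := one_le_pow₀ hx3
  obtain ⟨q, hq⟩ : ∃ q : ℝ, q = (y : ℝ) ^ (3 * ε / 4) := ⟨_, rfl⟩
  have hq1 : 1 ≤ q := by rw [hq]; exact Real.one_le_rpow hX1 (by positivity)
  have hKq : q * ((2 * (4 * lam + 1) + 1 + 4 * C * (4 * lam + 1)) * L ^ 4) ≤ c * K y := by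
    calc q * ((2 * (4 * lam + 1) + 1 + 4 * C * (4 * lam + 1)) * L ^ 4)
        = c * (q * ((2 * (4 * lam + 1) + 1 + 4 * C * (4 * lam + 1)) / c * L ^ 4)) := by
          field_simp
      _ ≤ c * (q * (y : ℝ) ^ (ε / 4)) := by gcongr
      _ = c * (y : ℝ) ^ ε := by
        rw [hq, ← Real.rpow_add hX0]
        congr 2; ring
      _ ≤ c * K y := by gcongr
  have hK1 : (2 * (4 * lam + 1) + 1 + 4 * C * (4 * lam + 1)) * L ^ 4 ≤ c * K y := by
    have : 1 * ((2 * (4 * lam + 1) + 1 + 4 * C * (4 * lam + 1)) * L ^ 4) ≤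
        q * ((2 * (4 * lam + 1) + 1 + 4 * C * (4 * lam + 1)) * L ^ 4) := by
      gcongr
    linarith
  have hKy0 : (0 : ℝ) < K y := by exact_mod_cast hR.pos y
  have hK2 : 4 * (C : ℝ) * h ≤ K y := by
    calc 4 * (C : ℝ) * h ≤ 4 * (C : ℝ) * ((4 * lam + 1) * L ^ 2) := by gcongr
      _ ≤ 4 * (C : ℝ) * ((4 * lam + 1) * L ^ 4) := by gcongr
      _ ≤ (2 * (4 * lam + 1) + 1 + 4 * C * (4 * lam + 1)) * L ^ 4 := by
        have h2 : 0 ≤ (2 * (4 * lam + 1) + 1) * L ^ 4 := by positivity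
        linarith
      _ ≤ c * K y := hK1
      _ ≤ K y := by nlinarith
  have hK2n : 4 * C * h ≤ K y := by exact_mod_cast hK2
  obtain ⟨s, hs⟩ : ∃ s : ℕ, s = ⌊c * K y⌋₊ := ⟨_, rfl⟩
  have hs1 : (s : ℝ) ≤ c * K y := by rw [hs]; exact Nat.floor_le (by positivity)
  have hs2 : c * K y < s + 1 := by rw [hs]; exact Nat.lt_floor_add_one _
  have hs3 : 2 * s ≤ K y := by
    have : (2 * s : ℝ) ≤ K y := by nlinarith
    exact_mod_cast this
  obtain ⟨N, hN⟩ : ∃ N : ℕ, N = s / h := ⟨_, rfl⟩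
  obtain ⟨k0, hk0⟩ : ∃ k0 : ℕ, k0 = K y / C := ⟨_, rfl⟩
  have hNh : N * h ≤ s := by
    rw [hN]; exact Nat.div_mul_le_self s h
  have hNreal : q ≤ N := by
    have h1 : (s : ℝ) < (N + 1) * h := by
      have := Nat.lt_div_mul_add (a := s) (b := h) hhpos
      rw [← hN] at this
      have h2 : ((s : ℕ) : ℝ) < ((N * h + h : ℕ) : ℝ) := by exact_mod_cast this
      push_cast at h2
      linarith
    by_contra hcon
    push Not at hcon
    have h3 : ((N : ℝ) + 1) * h ≤ (2 * q) * ((4 * lam + 1) * L ^ 2) := by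
      apply mul_le_mul _ hh3 (by positivity) (by positivity)
      linarith
    have h4 : (2 * q) * ((4 * lam + 1) * L ^ 2) + 1 ≤
        q * ((2 * (4 * lam + 1) + 1 + 4 * C * (4 * lam + 1)) * L ^ 4) := by
      have h5 : (2 * q) * ((4 * lam + 1) * L ^ 2) ≤ (2 * q) * ((4 * lam + 1) * L ^ 4) := by gcongr
      have h6 : 1 ≤ q * L ^ 4 := by nlinarith
      have h7 : 0 ≤ q * (4 * C * (4 * lam + 1) * L ^ 4) := by positivity
      linarith
    linarith
  have hNpos : 0 < N := by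
    have : (0 : ℝ) < N := by linarith
    exact_mod_cast this
  have hk0real : (K y : ℝ) / (2 * C) ≤ k0 := by
    have h1 : (K y : ℝ) < (k0 + 1) * C := by
      have := Nat.lt_div_mul_add (a := K y) (b := C) (by omega)
      rw [← hk0] at this
      have h2 : ((K y : ℕ) : ℝ) < ((k0 * C + C : ℕ) : ℝ) := by exact_mod_cast this
      push_cast at h2
      linarith
    rw [div_le_iff₀ (by positivity)]
    have h2 : 2 * (C : ℝ) ≤ K y := by
      have h3 : (1 : ℝ) ≤ h := by exact_mod_cast hhpos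
      have h4 : 4 * (C : ℝ) * 1 ≤ 4 * (C : ℝ) * h := by gcongr
      linarith
    linarith
  have h2hk0 : 2 * h ≤ k0 := by
    rw [hk0, Nat.le_div_iff_mul_le (by omega)]
    nlinarith
  obtain ⟨u, hu⟩ : ∃ u : ℕ, u = y + K y - N * h := ⟨_, rfl⟩
  have huX : u + N * h = y + K y := by omega
  have hu2 : y ≤ u := by omega
  refine ⟨u, N, h, hu2, hNpos, ?_, ?_⟩
  · rw [huX]
    have h1 : Real.log ((y + K y : ℕ) : ℝ) ≤ 2 * L := by
      have h2 : ((y + K y : ℕ) : ℝ) ≤ (y : ℝ) ^ 2 := by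
        have h3 : ((y + K y : ℕ) : ℝ) ≤ ((2 * y : ℕ) : ℝ) := by
          have : y + K y ≤ 2 * y := by omega
          exact_mod_cast this
        have h4 : (2 : ℝ) ≤ y := by
          have : 2 ≤ y := by omega
          exact_mod_cast this
        push_cast at h3 ⊢
        nlinarith
      have h3 : (0 : ℝ) < ((y + K y : ℕ) : ℝ) := by
        have : 0 < y + K y := by omega
        exact_mod_cast this
      have h4 := Real.log_le_log h3 h2
      rw [Real.log_pow, ← hL] at h4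
      push_cast at h4 ⊢
      exact h4
    have h2 : 0 ≤ Real.log ((y + K y : ℕ) : ℝ) := Real.log_natCast_nonneg _
    calc lam * Real.log ((y + K y : ℕ) : ℝ) ^ 2 ≤ lam * (2 * L) ^ 2 := by gcongr
      _ = 4 * lam * L ^ 2 := by ring
      _ ≤ h := hh1
  obtain ⟨R, hRdef⟩ : ∃ R : Finset ℕ, R = (Ioc (y - s) (y - s + s)).filter Nat.Prime ∪
      (Ioc y (y + K y)).filter Nat.Prime := ⟨_, rfl⟩
  have hRprop : ∀ p : ℕ, p.Prime → p ≤ u + N * h → u < p + K p → p ∈ R ∧ k0 ≤ K p := by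
    intro p hp h1 h2
    have hps : y - s < p := by
      by_contra hcon
      push Not at hcon
      have h3 : K p ≤ K y := hR.mono (by omega)
      omega
    constructor
    · rw [hRdef, mem_union, mem_filter, mem_filter, mem_Ioc, mem_Ioc]
      by_cases hpy : p ≤ y
      · exact Or.inl ⟨⟨hps, by omega⟩, hp⟩
      · exact Or.inr ⟨⟨by omega, by omega⟩, hp⟩
    · have h4 : K y ≤ K (2 * p) := hR.mono (by omega)
      have h5 := (hn0 p (by omega)).2.1
      rw [hk0]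
      exact Nat.div_le_of_le_mul (h4.trans h5)
  have hs4 : 2 ≤ s := by
    have h1 : (2 : ℝ) ≤ s := by
      have h2 : 3 ≤ c * K y := by
        have h3 : 3 * 1 ≤ (2 * (4 * lam + 1) + 1 + 4 * C * (4 * lam + 1)) * L ^ 4 := by
          apply mul_le_mul _ hL4 (by norm_num) (by positivity)
          have : 0 ≤ 4 * C * (4 * lam + 1) := by positivity
          linarith
        linarith
      linarith
    exact_mod_cast h1
  have hslog : ε / 2 * L ≤ Real.log s := by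
    have h1 : (y : ℝ) ^ (ε / 2) ≤ s := by
      have h2 : (y : ℝ) ^ (ε / 2) ≤ q := by
        rw [hq]
        exact Real.rpow_le_rpow_of_exponent_le hX1 (by linarith)
      have h3 : q ≤ N := hNreal
      have h4 : (N : ℝ) ≤ s := by
        have : N ≤ s := by
          calc N = N * 1 := (mul_one N).symm
            _ ≤ N * h := Nat.mul_le_mul_left _ hhpos
            _ ≤ s := hNh
        exact_mod_cast this
      linarith
    have h2 := Real.log_le_log (Real.rpow_pos_of_pos hX0 _) h1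
    rwa [Real.log_rpow hX0, ← hL] at h2
  have hRcard : (R.card : ℝ) ≤ (c * D) * K y / L := by
    have h1 := hB (y - s) s hs4
    have h2 : (R.card : ℝ) ≤ cnt (y - s) s + cnt y (K y) := by
      rw [hRdef]
      have := card_union_le ((Ioc (y - s) (y - s + s)).filter Nat.Prime)
        ((Ioc y (y + K y)).filter Nat.Prime)
      unfold cnt
      exact_mod_cast this
    have h3 : B * s / Real.log s ≤ B * (c * K y) / (ε / 2 * L) := by
      apply div_le_div₀ (by positivity) _ (by positivity) hslog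
      gcongr
    have h4 : B * (c * K y) / (ε / 2 * L) + c * K y / L = (c * D) * K y / L := by
      rw [hD']; field_simp
    linarith
  refine (real_no_window hD h2hk0 hhpos hNpos R hRprop hRcard).trans ?_
  refine no_window_bound (Ky := K y) (L := L) (A1 := c * D) (A2 := 2 * C) hx3 hL.symm hX0
    (by positivity) (by positivity) hKy0 le_rfl hk0real (by rw [← hq]; exact hNreal) ?_
  calc 2 * (c * D * (2 * C)) * h ≤ 2 * (c * D * (2 * C)) * ((4 * lam + 1) * L ^ 2) := by gcongr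
    _ = (c * (16 * C * D * (4 * lam + 1))) / 4 * L ^ 2 := by ring
    _ ≤ ε / 4 * L ^ 2 := by gcongr

end Pool.Agent.Q120.DP
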