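import Pool.Agent.Q120.DP.Prob
import Pool.Agent.Q152.ShiftsPrimes

/-!
# Randomly displaced primes: the estimates
-/

set_option autoImplicit false

namespace Pool.Agent.Q120.DP

open MeasureTheory ProbabilityTheory Finset Filter Pool.Agent.Q152.ShiftsPrimes

/-- The scales `K` of the displacements. -/
structure Regular (K : ℕ → ℕ) : Prop where
  pos : ∀ n, 0 < K n
  mono : Monotone K
  le : ∀ᶠ n : ℕ in atTop, K n ≤ n
  doubling : ∃ C : ℕ, ∀ᶠ n : ℕ in atTop, K (2 * n) ≤ C * K n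
  large : ∃ ε : ℝ, 0 < ε ∧ ∀ᶠ n : ℕ in atTop, (n : ℝ) ^ ε ≤ K n

theorem ev_log (A ε : ℝ) (hε : 0 < ε) : ∀ᶠ n : ℕ in atTop, A * Real.log n ^ 4 ≤ (n : ℝ) ^ ε := by
  have h1 := (isLittleO_log_rpow_rpow_atTop (4 : ℝ) hε)
  have h2 := h1.bound (show (0 : ℝ) < 1 / (|A| + 1) by positivity)
  have h3 := tendsto_natCast_atTop_atTop (R := ℝ) |>.eventually h2
  filter_upwards [h3, eventually_ge_atTop 1] with n hn hn1
  have hn1' : (1 : ℝ) ≤ n := by exact_mod_cast hn1
  have hlog : 0 ≤ Real.log n := Real.log_nonneg hn1'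
  rw [Real.norm_of_nonneg (by positivity), Real.norm_of_nonneg (by positivity)] at hn
  have h4 : Real.log n ^ (4 : ℝ) = Real.log n ^ 4 := by
    rw [← Real.rpow_natCast]; norm_num
  rw [h4] at hn
  have h5 : (|A| + 1) * Real.log n ^ 4 ≤ (n : ℝ) ^ ε := by
    have := mul_le_mul_of_nonneg_left hn (show 0 ≤ |A| + 1 by positivity)
    rwa [← mul_assoc, mul_one_div_cancel (by positivity), one_mul] at this
  have h6 : A * Real.log n ^ 4 ≤ (|A| + 1) * Real.log n ^ 4 :=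
    mul_le_mul_of_nonneg_right (by linarith [le_abs_self A]) (by positivity)
  linarith

theorem ev_one_le_log : ∀ᶠ n : ℕ in atTop, 1 ≤ Real.log n :=
  (Real.tendsto_log_atTop.comp tendsto_natCast_atTop_atTop).eventually_ge_atTop 1

variable {Ω : Type*} [MeasurableSpace Ω] {μ : Measure Ω} [IsProbabilityMeasure μ] {K : ℕ → ℕ}
  {ξ : ℕ → Ω → ℕ}

theorem upper_prob (hD : Displacement μ K ξ) (hR : Regular K) {c : ℝ} (hc : 0 < c)
    (hS : ∀ᶠ x : ℕ in atTop, c * K x / Real.log x ≤ cnt x (K x)) :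
    ∃ lam : ℝ, 0 < lam ∧ ∀ᶠ x : ℕ in atTop,
      μ.real (Free ξ (Ioc x (x + ⌈lam * Real.log x ^ 2⌉₊))) ≤ 1 / (x : ℝ) ^ 2 := by
  obtain ⟨C, hC⟩ := hR.doubling
  obtain ⟨ε, hε, hKε⟩ := hR.large
  obtain ⟨n0, hn0⟩ := eventually_atTop.1 (hR.le.and (hC.and (hKε.and (hS.and ev_one_le_log))))
  have hC1 : 1 ≤ C := by
    by_contra hcon
    have hC0 : C = 0 := by omega
    have h1 := (hn0 n0 le_rfl).2.1
    rw [hC0, zero_mul] at h1
    have := hR.pos (2 * n0)
    omega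
  have hC1' : (1 : ℝ) ≤ C := by exact_mod_cast hC1
  obtain ⟨c1, hc1⟩ : ∃ c1 : ℝ, c1 = c / (2 * C ^ 2) := ⟨_, rfl⟩
  have hc1p : 0 < c1 := by rw [hc1]; positivity
  refine ⟨2 / c1, by positivity, ?_⟩
  obtain ⟨lam, hlam⟩ : ∃ lam : ℝ, lam = 2 / c1 := ⟨_, rfl⟩
  rw [← hlam]
  have hlamp : 0 < lam := by rw [hlam]; positivity
  filter_upwards [ev_log ((lam + 1) * (C ^ 2 + 1 / c1)) ε hε, hKε, ev_one_le_log,
    eventually_ge_atTop (n0 + K n0 + K 0 + 1)] with x hx1 hx2 hx3 hx4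
  obtain ⟨L, hL⟩ : ∃ L : ℝ, L = Real.log x := ⟨_, rfl⟩
  rw [← hL] at hx1 hx3 ⊢
  obtain ⟨h, hh⟩ : ∃ h : ℕ, h = ⌈lam * L ^ 2⌉₊ := ⟨_, rfl⟩
  rw [← hh]
  have hx0 : (0 : ℝ) < x := by
    have : 0 < x := by omega
    exact_mod_cast this
  have hL0 : 0 < L := by linarith
  have hh1 : lam * L ^ 2 ≤ h := by rw [hh]; exact Nat.le_ceil _
  have hh2 : (h : ℝ) ≤ (lam + 1) * L ^ 2 := by
    have := (Nat.ceil_lt_add_one (show 0 ≤ lam * L ^ 2 by positivity)).le
    rw [hh]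
    have h1 : 1 ≤ L ^ 2 := one_le_pow₀ hx3
    nlinarith
  have hKx : (lam + 1) * (C ^ 2 + 1 / c1) * L ^ 4 ≤ K x := hx1.trans hx2
  have hL24 : L ^ 2 ≤ L ^ 4 := pow_le_pow_right₀ hx3 (by norm_num)
  have hL34 : L ^ 3 ≤ L ^ 4 := pow_le_pow_right₀ hx3 (by norm_num)
  have hKx1 : (C : ℝ) ^ 2 * h ≤ K x := by
    calc (C : ℝ) ^ 2 * h ≤ C ^ 2 * ((lam + 1) * L ^ 2) := by gcongr
      _ ≤ C ^ 2 * ((lam + 1) * L ^ 4) := by gcongr
      _ ≤ (lam + 1) * (C ^ 2 + 1 / c1) * L ^ 4 := by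
        have : 0 ≤ (lam + 1) * (1 / c1) * L ^ 4 := by positivity
        linarith
      _ ≤ K x := hKx
  have hKx2 : (h : ℝ) ≤ c1 * K x / L := by
    rw [le_div_iff₀ hL0]
    calc (h : ℝ) * L ≤ (lam + 1) * L ^ 2 * L := by gcongr
      _ = c1 * ((lam + 1) * (1 / c1) * L ^ 3) := by field_simp
      _ ≤ c1 * ((lam + 1) * (1 / c1) * L ^ 4) := by gcongr
      _ ≤ c1 * ((lam + 1) * (C ^ 2 + 1 / c1) * L ^ 4) := by
        apply mul_le_mul_of_nonneg_left _ hc1p.le
        have : 0 ≤ (lam + 1) * C ^ 2 * L ^ 4 := by positivity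
        linarith
      _ ≤ c1 * K x := by gcongr
  obtain ⟨y, hy⟩ : ∃ y : ℕ, y = Nat.findGreatest (fun y => y + K y ≤ x + h) (x + h) := ⟨_, rfl⟩
  have hy1 : y + K y ≤ x + h := by
    have := Nat.findGreatest_spec (P := fun y => y + K y ≤ x + h) (Nat.zero_le (x + h))
      (show 0 + K 0 ≤ x + h by omega)
    rw [← hy] at this
    exact this
  have hy2 : x + h < (y + 1) + K (y + 1) := by
    by_contra hcon
    push Not at hcon
    have hpos := hR.pos y
    have := Nat.findGreatest_is_greatest (P := fun y => y + K y ≤ x + h) (n := x + h) (k := y + 1)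
      (by rw [← hy]; omega) (by omega)
    exact this hcon
  have hy3 : n0 ≤ y := by
    by_contra hcon
    have h1 : K (y + 1) ≤ K n0 := hR.mono (by omega)
    omega
  have hy4 : x ≤ 2 * y + 1 := by
    have := (hn0 (y + 1) (by omega)).1
    omega
  have hKK : K x ≤ C ^ 2 * K y := by
    have h1 : K x ≤ K (2 * (y + 1)) := hR.mono (by omega)
    have h2 := (hn0 (y + 1) (by omega)).2.1
    have h3 : K (y + 1) ≤ K (2 * y) := by
      by_cases hy0 : y = 0
      · subst hy0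
        have h4 := (hn0 0 hy3).1
        have h5 := hR.pos 0
        omega
      · exact hR.mono (by omega)
    have h4 := (hn0 y hy3).2.1
    calc K x ≤ C * K (y + 1) := h1.trans h2
      _ ≤ C * (C * K y) := Nat.mul_le_mul_left _ (h3.trans h4)
      _ = C ^ 2 * K y := by ring
  have hKK' : (K x : ℝ) ≤ C ^ 2 * K y := by exact_mod_cast hKK
  have hhy : h ≤ K y := by
    have h1 : (C : ℝ) ^ 2 * h ≤ C ^ 2 * K y := hKx1.trans hKK'
    have h2 : (h : ℝ) ≤ K y := le_of_mul_le_mul_left h1 (by positivity)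
    exact_mod_cast h2
  have hyx : y ≤ x := by omega
  obtain ⟨R, hRdef⟩ : ∃ R : Finset ℕ, R = (Ioc y x).filter Nat.Prime := ⟨_, rfl⟩
  have hRprop : ∀ p ∈ R, p.Prime ∧ p ≤ x ∧ x + h < p + K p ∧ K p ≤ K x := by
    intro p hp
    rw [hRdef, mem_filter, mem_Ioc] at hp
    refine ⟨hp.2, hp.1.2, ?_, hR.mono hp.1.2⟩
    have : K (y + 1) ≤ K p := hR.mono hp.1.1
    omega
  have hcard : cnt y (K y) ≤ R.card + h := by
    unfold cnt
    have h1 : (Ioc y (y + K y)).filter Nat.Prime ⊆ R ∪ Ioc x (x + h) := by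
      intro p hp
      rw [mem_filter, mem_Ioc] at hp
      rw [mem_union, hRdef, mem_filter, mem_Ioc, mem_Ioc]
      by_cases hpx : p ≤ x
      · exact Or.inl ⟨⟨hp.1.1, hpx⟩, hp.2⟩
      · right
        omega
    refine (card_le_card h1).trans ((card_union_le _ _).trans ?_)
    rw [Nat.card_Ioc]
    omega
  have hylog : Real.log y ≤ L := by
    rw [hL]
    have hy1 : (0 : ℝ) < y := by
      have h5 := (hn0 y hy3).2.2.2.2
      by_contra hcon
      have : (y : ℝ) = 0 := le_antisymm (not_lt.1 hcon) (Nat.cast_nonneg _)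
      rw [this, Real.log_zero] at h5
      norm_num at h5
    exact Real.log_le_log hy1 (by exact_mod_cast hyx)
  have hylog1 : 1 ≤ Real.log y := (hn0 y hy3).2.2.2.2
  have hRcard : c1 * K x / L ≤ R.card := by
    have h1 := (hn0 y hy3).2.2.2.1
    have h2 : (cnt y (K y) : ℝ) ≤ R.card + h := by exact_mod_cast hcard
    have h3 : c * K y / L ≤ c * K y / Real.log y :=
      div_le_div_of_nonneg_left (by positivity) (by linarith) hylog
    have h4 : 2 * (c1 * K x / L) ≤ c * K y / L := by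
      rw [← mul_div_assoc]
      apply div_le_div_of_nonneg_right _ hL0.le
      rw [hc1]
      have h5 : 2 * (c / (2 * (C : ℝ) ^ 2) * K x) = c * (K x / C ^ 2) := by field_simp
      rw [h5]
      apply mul_le_mul_of_nonneg_left _ hc.le
      rw [div_le_iff₀ (by positivity)]
      linarith
    linarith
  refine (real_free_le hD (hR.pos x) R hRprop).trans ?_
  have hKx0 : (0 : ℝ) < K x := by exact_mod_cast hR.pos x
  have hexp : 2 * L ≤ h * R.card / K x := by
    rw [le_div_iff₀ hKx0]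
    calc 2 * L * K x = lam * L ^ 2 * (c1 * K x / L) := by
          rw [hlam]; field_simp
      _ ≤ h * R.card := by gcongr
  calc Real.exp (-(h * R.card / K x)) ≤ Real.exp (-(2 * L)) := Real.exp_le_exp.2 (by linarith)
    _ = 1 / (x : ℝ) ^ 2 := by
      have h1 : (x : ℝ) ^ 2 = Real.exp (2 * L) := by
        rw [hL, show (2 : ℝ) * Real.log x = ((2 : ℕ) : ℝ) * Real.log x by norm_num,
          Real.exp_nat_mul, Real.exp_log hx0]
      rw [h1, Real.exp_neg, one_div]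

end Pool.Agent.Q120.DP
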