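import Mathlib

/-!
# Randomly displaced primes: the probability part

Every prime `p` is moved by an independent random displacement, uniform on `{0, …, K p - 1}`.
-/

set_option autoImplicit false

namespace Pool.Agent.Q120.DP

open MeasureTheory ProbabilityTheory Finset

variable {Ω : Type*} [MeasurableSpace Ω]

/-- Independent displacements: `ξ n` is uniform on `{0, …, K n - 1}`. -/
structure Displacement (μ : Measure Ω) (K : ℕ → ℕ) (ξ : ℕ → Ω → ℕ) : Prop where
  measurable : ∀ n, Measurable (ξ n)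
  indep : iIndepFun ξ μ
  uniform : ∀ n k, μ.real {ω | ξ n ω = k} = if k < K n then 1 / (K n : ℝ) else 0

/-- The set of the displaced primes. -/
def displaced (ξ : ℕ → Ω → ℕ) (ω : Ω) : Set ℕ := {m | ∃ p : ℕ, p.Prime ∧ m = p + ξ p ω}

/-- The window `W` contains no displaced prime. -/
def Free (ξ : ℕ → Ω → ℕ) (W : Finset ℕ) : Set Ω := {ω | ∀ p : ℕ, p.Prime → p + ξ p ω ∉ W}

/-- The probability that the prime `p` is moved into `W`. -/
noncomputable def wt (K : ℕ → ℕ) (p : ℕ) (W : Finset ℕ) : ℝ :=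
  ((range (K p)).filter (fun k => p + k ∈ W)).card / (K p : ℝ)

theorem wt_nonneg (K : ℕ → ℕ) (p : ℕ) (W : Finset ℕ) : 0 ≤ wt K p W := by
  unfold wt; positivity

theorem wt_le_one (K : ℕ → ℕ) (p : ℕ) (W : Finset ℕ) : wt K p W ≤ 1 := by
  unfold wt
  apply div_le_one_of_le₀ _ (Nat.cast_nonneg _)
  have := card_filter_le (range (K p)) (fun k => p + k ∈ W)
  rw [card_range] at this
  exact_mod_cast this

theorem wt_union (K : ℕ → ℕ) (p : ℕ) {W V : Finset ℕ} (h : Disjoint W V) :
    wt K p (W ∪ V) = wt K p W + wt K p V := by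
  unfold wt
  rw [← add_div]
  congr 1
  have h1 : (range (K p)).filter (fun k => p + k ∈ W ∪ V) =
      (range (K p)).filter (fun k => p + k ∈ W) ∪ (range (K p)).filter (fun k => p + k ∈ V) := by
    ext k
    simp only [mem_filter, mem_union, mem_range]
    tauto
  rw [h1, card_union_of_disjoint]
  · push_cast; ring
  · rw [Finset.disjoint_left]
    intro k hk1 hk2
    rw [mem_filter] at hk1 hk2
    exact Finset.disjoint_left.1 h hk1.2 hk2.2

theorem wt_le_card (K : ℕ → ℕ) (p : ℕ) (W : Finset ℕ) : wt K p W ≤ W.card / (K p : ℝ) := by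
  unfold wt
  apply div_le_div_of_nonneg_right _ (Nat.cast_nonneg _)
  have : ((range (K p)).filter (fun k => p + k ∈ W)).card ≤ W.card := by
    apply card_le_card_of_injOn (fun k => p + k)
    · intro k hk
      exact (mem_filter.1 (Finset.mem_coe.1 hk)).2
    · intro a _ b _ hab
      simpa using hab
  exact_mod_cast this

variable {μ : Measure Ω} [IsProbabilityMeasure μ] {K : ℕ → ℕ} {ξ : ℕ → Ω → ℕ}

theorem measurableSet_pre (hD : Displacement μ K ξ) (p : ℕ) (s : Set ℕ) :
    MeasurableSet (ξ p ⁻¹' s) := hD.measurable p (MeasurableSet.of_discrete)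

theorem real_hit (hD : Displacement μ K ξ) (p : ℕ) (W : Finset ℕ) :
    μ.real (ξ p ⁻¹' {k | p + k ∈ W}) = wt K p W := by
  classical
  obtain ⟨T, hT⟩ : ∃ T : Finset ℕ, T = (range (W.sup id + 1)).filter (fun k => p + k ∈ W) := ⟨_, rfl⟩
  have hmem : ∀ k, k ∈ T ↔ p + k ∈ W := by
    intro k
    rw [hT, mem_filter, mem_range]
    constructor
    · exact fun h => h.2
    · intro h
      refine ⟨?_, h⟩
      have := Finset.le_sup (f := id) h
      simp only [id] at this
      omega
  have h1 : ξ p ⁻¹' {k | p + k ∈ W} = ⋃ k ∈ T, {ω | ξ p ω = k} := by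
    ext ω
    simp only [Set.mem_preimage, Set.mem_ofPred_eq, Set.mem_iUnion, exists_prop]
    constructor
    · intro h
      exact ⟨_, (hmem _).2 h, rfl⟩
    · rintro ⟨k, hk, rfl⟩
      exact (hmem _).1 hk
  rw [h1, measureReal_biUnion_finset]
  · simp_rw [hD.uniform]
    rw [← sum_filter, sum_const, nsmul_eq_mul]
    unfold wt
    have h2 : T.filter (fun k => k < K p) = (range (K p)).filter (fun k => p + k ∈ W) := by
      ext k
      rw [mem_filter, mem_filter, hmem, mem_range]
      tauto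
    rw [h2]
    ring
  · intro a _ b _ hab
    rw [Function.onFun, Set.disjoint_left]
    intro ω h1 h2
    exact hab (h1.symm.trans h2)
  · intro k _
    exact measurableSet_pre hD p {k}

theorem free_eq {M : ℕ} {W : Finset ℕ} (hW : ∀ m ∈ W, m ≤ M) :
    Free ξ W = ⋂ p ∈ (range (M + 1)).filter Nat.Prime, ξ p ⁻¹' {k | p + k ∉ W} := by
  ext ω
  simp only [Free, Set.mem_ofPred_eq, Set.mem_iInter, Set.mem_preimage, mem_filter, mem_range]
  constructor
  · intro h p hp
    exact h p hp.2
  · intro h p hp hpW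
    have := hW _ hpW
    exact h p ⟨by omega, hp⟩ hpW

theorem measurableSet_free (hD : Displacement μ K ξ) (W : Finset ℕ) : MeasurableSet (Free ξ W) := by
  rw [free_eq (M := W.sup id) (fun m hm => Finset.le_sup (f := id) hm)]
  exact Finset.measurableSet_biInter _ (fun p _ => measurableSet_pre hD p _)

theorem real_free (hD : Displacement μ K ξ) {M : ℕ} {W : Finset ℕ} (hW : ∀ m ∈ W, m ≤ M) :
    μ.real (Free ξ W) = ∏ p ∈ (range (M + 1)).filter Nat.Prime, (1 - wt K p W) := by
  rw [free_eq hW, Measure.real, hD.indep.measure_inter_preimage_eq_mul _ (fun p _ => MeasurableSet.of_discrete),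
    ENNReal.toReal_prod]
  refine prod_congr rfl (fun p _ => ?_)
  have h1 : ξ p ⁻¹' {k | p + k ∉ W} = (ξ p ⁻¹' {k | p + k ∈ W})ᶜ := rfl
  rw [h1]
  have h2 := probReal_compl_eq_one_sub (μ := μ) (measurableSet_pre hD p {k | p + k ∈ W})
  rw [real_hit hD p W] at h2
  exact h2

theorem real_free_inter (hD : Displacement μ K ξ) {M : ℕ} {W V : Finset ℕ} (hW : ∀ m ∈ W, m ≤ M)
    (hV : ∀ m ∈ V, m ≤ M) (hd : Disjoint W V) :
    μ.real (Free ξ W ∩ Free ξ V) ≤ μ.real (Free ξ W) * μ.real (Free ξ V) := by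
  have h1 : Free ξ W ∩ Free ξ V = Free ξ (W ∪ V) := by
    ext ω
    simp only [Free, Set.mem_inter_iff, Set.mem_ofPred_eq, mem_union, not_or]
    constructor
    · intro h p hp
      exact ⟨h.1 p hp, h.2 p hp⟩
    · intro h
      exact ⟨fun p hp => (h p hp).1, fun p hp => (h p hp).2⟩
  have h2 : ∀ m ∈ W ∪ V, m ≤ M := by
    intro m hm
    rcases mem_union.1 hm with h | h
    · exact hW m h
    · exact hV m h
  rw [h1, real_free hD h2, real_free hD hW, real_free hD hV, ← prod_mul_distrib]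
  apply prod_le_prod
  · intro p _
    have := wt_le_one K p (W ∪ V)
    linarith
  · intro p _
    rw [wt_union K p hd]
    have := mul_nonneg (wt_nonneg K p W) (wt_nonneg K p V)
    nlinarith

/-- The second moment method for negatively correlated events. -/
theorem real_none {ι : Type*} (I : Finset ι) (E : ι → Set Ω) (hE : ∀ i ∈ I, MeasurableSet (E i))
    (hneg : ∀ i ∈ I, ∀ j ∈ I, i ≠ j → μ.real (E i ∩ E j) ≤ μ.real (E i) * μ.real (E j))
    {s : ℝ} (hs : 0 < s) (hsum : s ≤ ∑ i ∈ I, μ.real (E i)) :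
    μ.real {ω | ∀ i ∈ I, ω ∉ E i} ≤ 1 / s := by
  classical
  obtain ⟨m, hm⟩ : ∃ m : ℝ, m = ∑ i ∈ I, μ.real (E i) := ⟨_, rfl⟩
  rw [← hm] at hsum
  have hm0 : 0 < m := lt_of_lt_of_le hs hsum
  let Z : Ω → ℝ := fun ω => ∑ i ∈ I, (E i).indicator (fun _ => (1 : ℝ)) ω
  have hint1 : ∀ i ∈ I, Integrable ((E i).indicator (fun _ => (1 : ℝ))) μ := fun i hi =>
    (integrable_const (1 : ℝ)).indicator (hE i hi)
  have hint2 : ∀ i ∈ I, ∀ j ∈ I, Integrable ((E i ∩ E j).indicator (fun _ => (1 : ℝ))) μ :=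
    fun i hi j hj => (integrable_const (1 : ℝ)).indicator ((hE i hi).inter (hE j hj))
  have hsq : ∀ ω, (Z ω - m) ^ 2 = ∑ i ∈ I, ∑ j ∈ I, (E i ∩ E j).indicator (fun _ => (1 : ℝ)) ω
      - 2 * m * Z ω + m ^ 2 := by
    intro ω
    have h1 : Z ω * Z ω = ∑ i ∈ I, ∑ j ∈ I, (E i ∩ E j).indicator (fun _ => (1 : ℝ)) ω := by
      simp only [Z]
      rw [Finset.sum_mul_sum]
      refine sum_congr rfl (fun i _ => sum_congr rfl (fun j _ => ?_))
      by_cases h1 : ω ∈ E i <;> by_cases h2 : ω ∈ E j <;> simp [h1, h2]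
    rw [← h1]; ring
  have hZint : Integrable Z μ := integrable_finsetSum _ hint1
  have hZZint : Integrable (fun ω => ∑ i ∈ I, ∑ j ∈ I, (E i ∩ E j).indicator (fun _ => (1 : ℝ)) ω) μ :=
    integrable_finsetSum _ (fun i hi => integrable_finsetSum _ (fun j hj => hint2 i hi j hj))
  have hZ1 : ∫ ω, Z ω ∂μ = m := by
    simp only [Z]
    rw [integral_finsetSum _ hint1, hm]
    refine sum_congr rfl (fun i hi => ?_)
    rw [integral_indicator_const _ (hE i hi)]
    simp
  have hZZ : ∫ ω, (∑ i ∈ I, ∑ j ∈ I, (E i ∩ E j).indicator (fun _ => (1 : ℝ)) ω) ∂μ ≤ m + m ^ 2 := by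
    rw [integral_finsetSum _ (fun i hi => integrable_finsetSum _ (fun j hj => hint2 i hi j hj))]
    have h2 : ∀ i ∈ I, ∫ ω, (∑ j ∈ I, (E i ∩ E j).indicator (fun _ => (1 : ℝ)) ω) ∂μ ≤
        μ.real (E i) + μ.real (E i) * m := by
      intro i hi
      rw [integral_finsetSum _ (fun j hj => hint2 i hi j hj)]
      have h3 : ∀ j ∈ I, ∫ ω, (E i ∩ E j).indicator (fun _ => (1 : ℝ)) ω ∂μ ≤
          (if j = i then μ.real (E i) else 0) + μ.real (E i) * μ.real (E j) := by
        intro j hj
        rw [integral_indicator_const _ ((hE i hi).inter (hE j hj))]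
        simp only [smul_eq_mul, mul_one]
        by_cases hij : j = i
        · subst hij
          rw [if_pos rfl, Set.inter_self]
          have := mul_nonneg (measureReal_nonneg (μ := μ) (s := E j)) (measureReal_nonneg (μ := μ) (s := E j))
          linarith
        · rw [if_neg hij]
          have := hneg i hi j hj (Ne.symm hij)
          linarith
      refine (sum_le_sum h3).trans (le_of_eq ?_)
      rw [sum_add_distrib, sum_ite_eq' I i, if_pos hi, ← mul_sum, ← hm]
    refine (sum_le_sum h2).trans (le_of_eq ?_)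
    rw [sum_add_distrib, ← sum_mul, ← hm]
    ring
  have hvar : ∫ ω, (Z ω - m) ^ 2 ∂μ ≤ m := by
    have h4 : ∫ ω, (Z ω - m) ^ 2 ∂μ = (∫ ω, (∑ i ∈ I, ∑ j ∈ I, (E i ∩ E j).indicator (fun _ => (1 : ℝ)) ω) ∂μ)
        - 2 * m * m + m ^ 2 := by
      simp_rw [hsq]
      have e1 : ∫ ω, (∑ i ∈ I, ∑ j ∈ I, (E i ∩ E j).indicator (fun _ => (1 : ℝ)) ω
          - 2 * m * Z ω + m ^ 2) ∂μ = ∫ ω, (∑ i ∈ I, ∑ j ∈ I,
          (E i ∩ E j).indicator (fun _ => (1 : ℝ)) ω - 2 * m * Z ω) ∂μ + ∫ _, m ^ 2 ∂μ :=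
        integral_add (hZZint.sub (hZint.const_mul (2 * m))) (integrable_const _)
      have e2 : ∫ ω, (∑ i ∈ I, ∑ j ∈ I, (E i ∩ E j).indicator (fun _ => (1 : ℝ)) ω
          - 2 * m * Z ω) ∂μ = ∫ ω, (∑ i ∈ I, ∑ j ∈ I,
          (E i ∩ E j).indicator (fun _ => (1 : ℝ)) ω) ∂μ - ∫ ω, 2 * m * Z ω ∂μ :=
        integral_sub hZZint (hZint.const_mul (2 * m))
      rw [e1, e2, integral_const_mul, hZ1]
      simp
    rw [h4]
    nlinarith
  have hsqint : Integrable (fun ω => (Z ω - m) ^ 2) μ := by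
    simp_rw [hsq]
    exact (hZZint.sub (hZint.const_mul (2 * m))).add (integrable_const _)
  have hmk := mul_meas_ge_le_integral_of_nonneg (μ := μ) (f := fun ω => (Z ω - m) ^ 2)
    (Filter.Eventually.of_forall (fun ω => sq_nonneg _)) hsqint (m ^ 2)
  have hsub : {ω | ∀ i ∈ I, ω ∉ E i} ⊆ {ω | m ^ 2 ≤ (Z ω - m) ^ 2} := by
    intro ω hω
    have h5 : Z ω = 0 := by
      simp only [Z]
      refine sum_eq_zero (fun i hi => ?_)
      rw [Set.indicator_of_notMem (hω i hi)]
    rw [Set.mem_ofPred_eq, h5]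
    nlinarith
  have h6 : μ.real {ω | ∀ i ∈ I, ω ∉ E i} ≤ μ.real {ω | m ^ 2 ≤ (Z ω - m) ^ 2} := measureReal_mono hsub
  have h7 : m ^ 2 * μ.real {ω | ∀ i ∈ I, ω ∉ E i} ≤ m := by
    have h8 : m ^ 2 * μ.real {ω | ∀ i ∈ I, ω ∉ E i} ≤ m ^ 2 * μ.real {ω | m ^ 2 ≤ (Z ω - m) ^ 2} :=
      mul_le_mul_of_nonneg_left h6 (by positivity)
    linarith
  have h9 : m * μ.real {ω | ∀ i ∈ I, ω ∉ E i} ≤ 1 := by
    have : m * (m * μ.real {ω | ∀ i ∈ I, ω ∉ E i}) ≤ m * 1 := by linarith [h7]
    exact le_of_mul_le_mul_left this hm0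
  rw [le_div_iff₀ hs]
  have h10 := measureReal_nonneg (μ := μ) (s := {ω | ∀ i ∈ I, ω ∉ E i})
  nlinarith

/-- The upper bound for the probability of a free window. -/
theorem real_free_le (hD : Displacement μ K ξ) {x h : ℕ} {k1 : ℕ} (hk1 : 0 < k1) (R : Finset ℕ)
    (hR : ∀ p ∈ R, p.Prime ∧ p ≤ x ∧ x + h < p + K p ∧ K p ≤ k1) :
    μ.real (Free ξ (Ioc x (x + h))) ≤ Real.exp (-(h * R.card / k1)) := by
  rw [real_free hD (M := x + h) (fun m hm => (mem_Ioc.1 hm).2)]
  have hsub : R ⊆ (range (x + h + 1)).filter Nat.Prime := by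
    intro p hp
    obtain ⟨h1, h2, _, _⟩ := hR p hp
    rw [mem_filter, mem_range]
    exact ⟨by omega, h1⟩
  rw [← prod_sdiff hsub]
  have h1 : ∏ p ∈ (range (x + h + 1)).filter Nat.Prime \ R, (1 - wt K p (Ioc x (x + h))) ≤ 1 := by
    apply prod_le_one
    · intro p _
      have := wt_le_one K p (Ioc x (x + h))
      linarith
    · intro p _
      have := wt_nonneg K p (Ioc x (x + h))
      linarith
  have h2 : ∏ p ∈ R, (1 - wt K p (Ioc x (x + h))) ≤ ∏ p ∈ R, Real.exp (-(h / k1 : ℝ)) := by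
    apply prod_le_prod
    · intro p _
      have := wt_le_one K p (Ioc x (x + h))
      linarith
    · intro p hp
      obtain ⟨_, h3, h4, h5⟩ := hR p hp
      have hwt : (h : ℝ) / k1 ≤ wt K p (Ioc x (x + h)) := by
        unfold wt
        have hcard : h ≤ ((range (K p)).filter (fun k => p + k ∈ Ioc x (x + h))).card := by
          have : (Ioc (x - p) (x - p + h)).card ≤
              ((range (K p)).filter (fun k => p + k ∈ Ioc x (x + h))).card := by
            apply card_le_card
            intro k hk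
            rw [mem_Ioc] at hk
            rw [mem_filter, mem_range, mem_Ioc]
            omega
          rwa [Nat.card_Ioc, Nat.add_sub_cancel_left] at this
        have hKp : 0 < K p := by omega
        apply div_le_div₀ (Nat.cast_nonneg _) (by exact_mod_cast hcard) (by exact_mod_cast hKp)
          (by exact_mod_cast h5)
      have := Real.one_sub_le_exp_neg (wt K p (Ioc x (x + h)))
      refine this.trans (Real.exp_le_exp.2 (by linarith))
  have h3 : 0 ≤ ∏ p ∈ R, (1 - wt K p (Ioc x (x + h))) := by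
    apply prod_nonneg
    intro p _
    have := wt_le_one K p (Ioc x (x + h))
    linarith
  have h4 : ∏ p ∈ R, Real.exp (-(h / k1 : ℝ)) = Real.exp (-(h * R.card / k1)) := by
    rw [prod_const, ← Real.exp_nat_mul]
    congr 1
    ring
  rw [← h4]
  calc _ ≤ 1 * ∏ p ∈ R, (1 - wt K p (Ioc x (x + h))) := mul_le_mul_of_nonneg_right h1 h3
    _ = ∏ p ∈ R, (1 - wt K p (Ioc x (x + h))) := one_mul _
    _ ≤ _ := h2

/-- The lower bound for the probability of a free window. -/
theorem le_real_free (hD : Displacement μ K ξ) {x h k0 : ℕ} {r : ℝ} (hh : 2 * h ≤ k0) (h0 : 0 < h)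
    (R : Finset ℕ) (hR : ∀ p : ℕ, p.Prime → p ≤ x + h → x < p + K p → p ∈ R ∧ k0 ≤ K p)
    (hr : (R.card : ℝ) ≤ r) :
    Real.exp (-(2 * h * r / k0)) ≤ μ.real (Free ξ (Ioc x (x + h))) := by
  classical
  rw [real_free hD (M := x + h) (fun m hm => (mem_Ioc.1 hm).2)]
  have hk0 : 0 < k0 := by omega
  have hk0' : (0 : ℝ) < k0 := by exact_mod_cast hk0
  have hzero : ∀ p ∈ (range (x + h + 1)).filter Nat.Prime, ¬ (x < p + K p) →
      1 - wt K p (Ioc x (x + h)) = 1 := by
    intro p hp hx
    have : wt K p (Ioc x (x + h)) = 0 := by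
      unfold wt
      have h1 : (range (K p)).filter (fun k => p + k ∈ Ioc x (x + h)) = ∅ := by
        rw [filter_eq_empty_iff]
        intro k hk
        rw [mem_range] at hk
        rw [mem_Ioc]
        omega
      rw [h1]; simp
    rw [this]; ring
  have h1 : ∏ p ∈ (range (x + h + 1)).filter Nat.Prime, (1 - wt K p (Ioc x (x + h))) =
      ∏ p ∈ ((range (x + h + 1)).filter Nat.Prime).filter (fun p => x < p + K p),
        (1 - wt K p (Ioc x (x + h))) := by
    refine (prod_subset (filter_subset _ _) (fun p hp hp' => hzero p hp (fun hlt => hp' ?_))).symm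
    rw [mem_filter]
    exact ⟨hp, hlt⟩
  rw [h1]
  have hle : (h : ℝ) / k0 ≤ 1 / 2 := by
    rw [div_le_div_iff₀ hk0' (by norm_num)]
    have : ((2 * h : ℕ) : ℝ) ≤ k0 := by exact_mod_cast hh
    push_cast at this
    linarith
  have h2 : ∏ p ∈ ((range (x + h + 1)).filter Nat.Prime).filter (fun p => x < p + K p),
      Real.exp (-(2 * h / k0 : ℝ)) ≤
      ∏ p ∈ ((range (x + h + 1)).filter Nat.Prime).filter (fun p => x < p + K p),
        (1 - wt K p (Ioc x (x + h))) := by
    apply prod_le_prod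
    · intro p _
      positivity
    · intro p hp
      rw [mem_filter, mem_filter, mem_range] at hp
      obtain ⟨_, hKp⟩ := hR p hp.1.2 (by omega) hp.2
      have hwt : wt K p (Ioc x (x + h)) ≤ h / k0 := by
        refine (wt_le_card K p _).trans ?_
        rw [Nat.card_Ioc, Nat.add_sub_cancel_left]
        exact div_le_div_of_nonneg_left (Nat.cast_nonneg _) hk0' (by exact_mod_cast hKp)
      have hexp : Real.exp (-(2 * h / k0 : ℝ)) ≤ 1 - (h : ℝ) / k0 := by
        have hpos : 0 < 1 - (h : ℝ) / k0 := by linarith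
        have := Real.one_sub_inv_le_log_of_pos hpos
        rw [← Real.le_log_iff_exp_le hpos]
        refine le_trans ?_ this
        have h5 : (1 - (h : ℝ) / k0)⁻¹ ≤ 1 + 2 * h / k0 := by
          rw [inv_le_comm₀ hpos (by positivity)]
          rw [inv_le_iff_one_le_mul₀ (by positivity)]
          have h6 : 0 ≤ (h : ℝ) / k0 := by positivity
          have h7 : (2 * h / k0 : ℝ) = 2 * (h / k0) := by ring
          rw [h7]
          nlinarith
        linarith
      linarith
  refine le_trans ?_ h2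
  rw [prod_const, ← Real.exp_nat_mul]
  apply Real.exp_le_exp.2
  have hcard : ((((range (x + h + 1)).filter Nat.Prime).filter (fun p => x < p + K p)).card : ℝ) ≤ r := by
    refine le_trans ?_ hr
    have : (((range (x + h + 1)).filter Nat.Prime).filter (fun p => x < p + K p)).card ≤ R.card := by
      apply card_le_card
      intro p hp
      rw [mem_filter, mem_filter, mem_range] at hp
      exact (hR p hp.1.2 (by omega) hp.2).1
    exact_mod_cast this
  have : ((((range (x + h + 1)).filter Nat.Prime).filter (fun p => x < p + K p)).card : ℝ) *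
      (2 * h / k0) ≤ r * (2 * h / k0) := mul_le_mul_of_nonneg_right hcard (by positivity)
  calc -(2 * h * r / k0 : ℝ) = -(r * (2 * h / k0)) := by ring
    _ ≤ -(((((range (x + h + 1)).filter Nat.Prime).filter (fun p => x < p + K p)).card : ℝ) *
      (2 * h / k0)) := by linarith
    _ = _ := by ring

/-- Some window is free with high probability. -/
theorem real_no_window (hD : Displacement μ K ξ) {u h N k0 : ℕ} {r : ℝ} (hh : 2 * h ≤ k0) (h0 : 0 < h)
    (hN : 0 < N) (R : Finset ℕ)
    (hR : ∀ p : ℕ, p.Prime → p ≤ u + N * h → u < p + K p → p ∈ R ∧ k0 ≤ K p)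
    (hr : (R.card : ℝ) ≤ r) :
    μ.real {ω | ∀ i ∈ range N, ω ∉ Free ξ (Ioc (u + i * h) (u + i * h + h))} ≤
      Real.exp (2 * h * r / k0) / N := by
  have hN' : (0 : ℝ) < N := by exact_mod_cast hN
  have hi : ∀ i ∈ range N, u + i * h + h ≤ u + N * h := by
    intro i hi
    have h1 : (i + 1) * h ≤ N * h := Nat.mul_le_mul_right h (mem_range.1 hi)
    nlinarith
  have h1 := real_none (μ := μ) (range N) (fun i => Free ξ (Ioc (u + i * h) (u + i * h + h)))
    (fun i _ => measurableSet_free hD _)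
    (by
      intro i hi' j hj' hij
      apply real_free_inter hD (M := u + N * h)
      · intro m hm
        exact (mem_Ioc.1 hm).2.trans (hi i hi')
      · intro m hm
        exact (mem_Ioc.1 hm).2.trans (hi j hj')
      · rw [Finset.disjoint_left]
        intro m hm1 hm2
        rw [mem_Ioc] at hm1 hm2
        rcases lt_or_gt_of_ne hij with h2 | h2
        · have h3 : (i + 1) * h ≤ j * h := Nat.mul_le_mul_right h h2
          nlinarith
        · have h3 : (j + 1) * h ≤ i * h := Nat.mul_le_mul_right h h2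
          nlinarith)
    (s := N * Real.exp (-(2 * h * r / k0))) (by positivity)
    (by
      have h2 : ∀ i ∈ range N, Real.exp (-(2 * h * r / k0)) ≤
          μ.real (Free ξ (Ioc (u + i * h) (u + i * h + h))) := by
        intro i hi'
        apply le_real_free hD hh h0 R _ hr
        intro p hp h3 h4
        exact hR p hp (h3.trans (hi i hi')) (lt_of_le_of_lt (Nat.le_add_right _ _) h4)
      have h3 := sum_le_sum h2
      rw [sum_const, card_range, nsmul_eq_mul] at h3
      exact h3)
  refine h1.trans (le_of_eq ?_)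
  rw [Real.exp_neg]
  field_simp

end Pool.Agent.Q120.DP
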